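import Pool.Agent.Lib_MP_33ea09_lc.HardB
import Pool.Agent.Lib_MP_33ea09_lc.VerP

/-!
# `BOXICITY` is NP-complete on graphs of bounded treewidth
-/

namespace Pool.Agent.Results.MP_33ea09_lc.BoxicityNPComplete

open Pool.Agent.Bx81

/-- For every `t ≥ 24`, the problem `BOXICITY` restricted to graphs of treewidth at most `t` is
NP-complete under polynomial-time many-one reductions, and the reductions can be chosen to produce
only instances `(G, 8)` with `G` of treewidth at most 24. -/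
theorem result (t : ℕ) (ht : 24 ≤ t) :
    InNP (Boxicity t) ∧
    ∀ (Γ : Type) [Fintype Γ] (L : Set (List Γ)), InNP L →
      ∃ f : List Γ → List (Option Bool), PolyTime f ∧
        (∀ x, ∃ (n : ℕ) (G : SimpleGraph (Fin n)), f x = encode G 8 ∧ TreewidthLE G 24) ∧
        ∀ x, x ∈ L ↔ f x ∈ Boxicity t := by
  refine ⟨mem_np t, fun Γ _ L hL => ?_⟩
  obtain ⟨f, hf, h⟩ := hard_strong L hL
  refine ⟨f, hf, fun x => ?_, fun x => ?_⟩
  · obtain ⟨n, G, h1, h2, _⟩ := h x
    exact ⟨n, G, h1, h2⟩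
  · obtain ⟨n, G, h1, h2, h3⟩ := h x
    rw [h1, encode_mem, h3]
    exact ⟨fun h => ⟨h2.mono ht, h⟩, fun h => h.2⟩

end Pool.Agent.Results.MP_33ea09_lc.BoxicityNPComplete
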